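import Pool.Agent.Q11.CZ.Cls

/-!
# Colmez's class functions: what follows from the averaged and from the abelian case

`K` is a CM field, Galois over `ℚ`, `c` its complex conjugation.  For a number field `E` the set `H_E` of
its embeddings is the set of its embeddings into `K` (if `K` contains the conjugates of `E`), and
`a⁰_{E,ψ,Φ}` is the class function on `G = Gal(K/ℚ)` of the question, for a CM type `Φ` of `E` and
`ψ ∈ H_E`.  The Faltings height of an abelian variety of CM type `(E, Φ)` belongs to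
`A_Φ = ∑_{ψ ∈ Φ} a⁰_{E,ψ,Φ}`.

By Colmez's theorem both sides of the formula in question are values at `a⁰_{E,ψ,Φ}` of `ℚ`-linear
functions.  The formula is known for `1`, for the sums of the `A_Φ` over all CM types `Φ` of a field `E`
(the averaged formula) and for the `a⁰_{E,ψ,Φ}` of the fields `E` which are abelian over `ℚ`.  We
determine exactly the spaces `avgSpan` and `avgSpan ⊔ abSpan` spanned by these functions, that is for
which CM types the formula is a consequence of the known cases, and show that they contain the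
functions of all CM types with values in `K` under simple conditions on the conjugacy classes of `G`.
-/

set_option autoImplicit false

open NumberField

namespace Pool.Agent.Results.MP_a2beea_nt.AveragedAndAbelian

variable {E K : Type} [Field E] [NumberField E] [Field K] [NumberField K]

/-- The complex conjugation of the CM field `K`, an element of `Gal(K/ℚ)`. -/
noncomputable def conjugation (K : Type) [Field K] [NumberField K] [IsCMField K] : K ≃ₐ[ℚ] K :=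
  (IsCMField.complexConj K).restrictScalars ℚ

/-- The action `g ψ = g ∘ ψ` of `Gal(K/ℚ)` on `H_E`, the set of the embeddings of `E` into `K`. -/
def act (g : K ≃ₐ[ℚ] K) (ψ : E →ₐ[ℚ] K) : E →ₐ[ℚ] K := (g : K →ₐ[ℚ] K).comp ψ

/-- `Φ` is a CM type of `E`: `H_E` is the disjoint union of `Φ` and `c Φ`. -/
def IsCMType [IsCMField K] (Φ : Finset (E →ₐ[ℚ] K)) : Prop :=
  ∀ ψ : E →ₐ[ℚ] K, act (conjugation K) ψ ∈ Φ ↔ ψ ∉ Φ

/-- Colmez's function `a⁰_{E,ψ,Φ}(g) = #{η : η⁻¹ g η ψ ∈ Φ} / #Gal(K/ℚ)`. -/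
noncomputable def a0 (ψ : E →ₐ[ℚ] K) (Φ : Finset (E →ₐ[ℚ] K)) (g : K ≃ₐ[ℚ] K) : ℚ :=
  (Nat.card {η : K ≃ₐ[ℚ] K // act (η⁻¹ * g * η) ψ ∈ Φ} : ℚ) / Nat.card (K ≃ₐ[ℚ] K)

/-- `A_Φ`, the sum of Colmez's functions over the elements of the CM type. -/
noncomputable def heightFn (Φ : Finset (E →ₐ[ℚ] K)) (g : K ≃ₐ[ℚ] K) : ℚ := ∑ ψ ∈ Φ, a0 ψ Φ g

open scoped Classical in
/-- The sum of the `A_Φ` over all CM types of `E`. -/
noncomputable def totalFn (E K : Type) [Field E] [NumberField E] [Field K] [NumberField K]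
    [IsCMField K] (g : K ≃ₐ[ℚ] K) : ℚ :=
  ∑ Φ ∈ Finset.univ.filter (fun Φ : Finset (E →ₐ[ℚ] K) => IsCMType Φ), heightFn Φ g

/-- The span of `1` and the sums of the `A_Φ` over all CM types of a field. -/
noncomputable def avgSpan (K : Type) [Field K] [NumberField K] [IsCMField K] :
    Submodule ℚ ((K ≃ₐ[ℚ] K) → ℚ) :=
  Submodule.span ℚ ({fun _ => 1} ∪ {F | ∃ (E : Type) (_ : Field E) (_ : NumberField E),
    F = totalFn E K})

/-- The span of the functions `a⁰_{E,ψ,Φ}` of the fields `E` which are abelian over `ℚ`. -/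
noncomputable def abSpan (K : Type) [Field K] [NumberField K] [IsCMField K] :
    Submodule ℚ ((K ≃ₐ[ℚ] K) → ℚ) :=
  Submodule.span ℚ {F | ∃ (E : Type) (_ : Field E) (_ : NumberField E), IsAbelianGalois ℚ E ∧
    ∃ (ψ : E →ₐ[ℚ] K) (Φ : Finset (E →ₐ[ℚ] K)), IsCMType Φ ∧ F = a0 ψ Φ}

/-- `f` is a class function and `f(g) + f(c g)` does not depend on `g`. -/
def IsCMFunction [IsCMField K] (f : (K ≃ₐ[ℚ] K) → ℚ) : Prop :=
  (∀ g h : K ≃ₐ[ℚ] K, f (h⁻¹ * g * h) = f g) ∧ ∃ s : ℚ, ∀ g, f g + f (conjugation K * g) = s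

/-- For every `g`, one of: `c g` is conjugate to `g`; all generators of the group generated by `g`
are conjugate to `g`; all elements of `g [G, G]` are conjugate to `g`. -/
def ClassCond (G : Type) [Group G] (c : G) : Prop := ∀ g : G,
  IsConj (c * g) g ∨ (∀ g' : G, Subgroup.zpowers g' = Subgroup.zpowers g → IsConj g' g) ∨
    ∀ z ∈ commutator G, IsConj (g * z) g

/-- The same with conjugate to `g` or to `g⁻¹` in place of conjugate to `g`. -/
def ClassCondInv (G : Type) [Group G] (c : G) : Prop := ∀ g : G,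
  (IsConj (c * g) g ∨ IsConj (c * g) g⁻¹) ∨
  (∀ g' : G, Subgroup.zpowers g' = Subgroup.zpowers g → IsConj g' g ∨ IsConj g' g⁻¹) ∨
    ∀ z ∈ commutator G, IsConj (g * z) g ∨ IsConj (g * z) g⁻¹

lemma isHalf [IsCMField K] {Φ : Finset (E →ₐ[ℚ] K)} (hΦ : IsCMType Φ) :
    Pool.Agent.Q11.CZ.IsHalf (Pool.Agent.Q11.CZ.conj K) Φ := hΦ

open scoped Classical in
lemma a0_eq (ψ : E →ₐ[ℚ] K) (Φ : Finset (E →ₐ[ℚ] K)) : a0 ψ Φ = Pool.Agent.Q11.CZ.a0 ψ Φ := by
  funext g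
  unfold a0 Pool.Agent.Q11.CZ.a0
  rw [Nat.card_eq_fintype_card, Nat.card_eq_fintype_card, Fintype.card_subtype]
  rfl

lemma heightFn_eq (Φ : Finset (E →ₐ[ℚ] K)) : heightFn Φ = Pool.Agent.Q11.CZ.T Φ := by
  funext g
  unfold heightFn Pool.Agent.Q11.CZ.T
  simp only [a0_eq]

open scoped Classical in
lemma totalFn_eq (E K : Type) [Field E] [NumberField E] [Field K] [NumberField K]
    [IsCMField K] : totalFn E K =
      ∑ Φ ∈ Pool.Agent.Q11.CZ.halves (Pool.Agent.Q11.CZ.conj K) (E →ₐ[ℚ] K),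
        Pool.Agent.Q11.CZ.T Φ := by
  funext g
  rw [Finset.sum_apply]
  unfold totalFn Pool.Agent.Q11.CZ.halves
  simp only [heightFn_eq]
  rfl

lemma avgSpan_eq [IsCMField K] : avgSpan K = Pool.Agent.Q11.CZ.avgSpan K := by
  unfold avgSpan Pool.Agent.Q11.CZ.avgSpan
  simp only [totalFn_eq]

lemma abSpan_eq [IsCMField K] : abSpan K = Pool.Agent.Q11.CZ.abSpan K := by
  unfold abSpan Pool.Agent.Q11.CZ.abSpan
  simp only [a0_eq]
  rfl

lemma a0_cm [IsCMField K] (ψ : E →ₐ[ℚ] K) {Φ : Finset (E →ₐ[ℚ] K)} (hΦ : IsCMType Φ) :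
    IsCMFunction (a0 ψ Φ) := by
  rw [a0_eq]
  exact ⟨Pool.Agent.Q11.CZ.a0_isClass ψ Φ, 1,
    fun g => Pool.Agent.Q11.CZ.a0_add Pool.Agent.Q11.CZ.conj_comm ψ (isHalf hΦ) g⟩

lemma height_cm [IsCMField K] {Φ : Finset (E →ₐ[ℚ] K)} (hΦ : IsCMType Φ) :
    IsCMFunction (heightFn Φ) := by
  rw [heightFn_eq]
  exact ⟨Pool.Agent.Q11.CZ.T_isClass Φ, Φ.card,
    fun g => Pool.Agent.Q11.CZ.T_add Pool.Agent.Q11.CZ.conj_comm (isHalf hΦ) g⟩

lemma height_inv [IsCMField K] (Φ : Finset (E →ₐ[ℚ] K)) (g : K ≃ₐ[ℚ] K) :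
    heightFn Φ g⁻¹ = heightFn Φ g := by
  rw [heightFn_eq]
  exact Pool.Agent.Q11.CZ.T_inv Φ g

/-- **Main result.**  Let `K` be a CM field, Galois over `ℚ`, with Galois group `G`.
(1) `avgSpan K` consists of the class functions `f`, with `f(g) + f(c g)` constant, which take the
same value at elements generating the same cyclic group.
(2) `avgSpan K ⊔ abSpan K` consists of the class functions `f`, with `f(g) + f(c g)` constant, such that
`f(g ^ j) - f(g)` only depends on the class of `g` in the abelianisation of `G`, for all `j` prime to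
the order of `G`.
(3) If `G` satisfies `ClassCond`, this space contains `a⁰_{E,ψ,Φ}` for all CM types with values in `K`.
(4) If `G` satisfies `ClassCondInv`, it contains `A_Φ` for all CM types with values in `K`.
(5) If `g ^ 4 = 1` or `g ^ 6 = 1` for every `g` in `G`, then `avgSpan K` contains `A_Φ` for all CM types
with values in `K`. -/
theorem result (K : Type) [Field K] [NumberField K] [IsGalois ℚ K] [IsCMField K] :
    (∀ f : (K ≃ₐ[ℚ] K) → ℚ, f ∈ avgSpan K ↔ IsCMFunction f ∧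
      ∀ g g' : K ≃ₐ[ℚ] K, Subgroup.zpowers g = Subgroup.zpowers g' → f g = f g') ∧
    (∀ f : (K ≃ₐ[ℚ] K) → ℚ, f ∈ avgSpan K ⊔ abSpan K ↔ IsCMFunction f ∧
      ∀ j : ℕ, j.Coprime (Nat.card (K ≃ₐ[ℚ] K)) → ∀ g : K ≃ₐ[ℚ] K,
        ∀ z ∈ commutator (K ≃ₐ[ℚ] K), f ((g * z) ^ j) - f (g * z) = f (g ^ j) - f g) ∧
    (ClassCond (K ≃ₐ[ℚ] K) (conjugation K) →
      ∀ (E : Type) [Field E] [NumberField E] (Φ : Finset (E →ₐ[ℚ] K)), IsCMType Φ →
        ∀ ψ : E →ₐ[ℚ] K, a0 ψ Φ ∈ avgSpan K ⊔ abSpan K) ∧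
    (ClassCondInv (K ≃ₐ[ℚ] K) (conjugation K) →
      ∀ (E : Type) [Field E] [NumberField E] (Φ : Finset (E →ₐ[ℚ] K)), IsCMType Φ →
        heightFn Φ ∈ avgSpan K ⊔ abSpan K) ∧
    ((∀ g : K ≃ₐ[ℚ] K, g ^ 4 = 1 ∨ g ^ 6 = 1) →
      ∀ (E : Type) [Field E] [NumberField E] (Φ : Finset (E →ₐ[ℚ] K)), IsCMType Φ →
        heightFn Φ ∈ avgSpan K) := by
  have h1 : ∀ f : (K ≃ₐ[ℚ] K) → ℚ, f ∈ avgSpan K ↔ IsCMFunction f ∧
      ∀ g g' : K ≃ₐ[ℚ] K, Subgroup.zpowers g = Subgroup.zpowers g' → f g = f g' := by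
    intro f
    rw [avgSpan_eq, Pool.Agent.Q11.CZ.mem_avgSpan_iff]
    exact and_assoc.symm
  have h2 : ∀ f : (K ≃ₐ[ℚ] K) → ℚ, f ∈ avgSpan K ⊔ abSpan K ↔ IsCMFunction f ∧
      ∀ j : ℕ, j.Coprime (Nat.card (K ≃ₐ[ℚ] K)) → ∀ g : K ≃ₐ[ℚ] K,
        ∀ z ∈ commutator (K ≃ₐ[ℚ] K), f ((g * z) ^ j) - f (g * z) = f (g ^ j) - f g := by
    intro f
    rw [avgSpan_eq, abSpan_eq, Pool.Agent.Q11.CZ.mem_sup_iff]
    exact and_assoc.symm
  have hc1 : conjugation K ≠ 1 := by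
    intro h
    apply IsCMField.complexConj_ne_one K
    apply AlgEquiv.ext
    intro x
    exact congrArg (fun g : K ≃ₐ[ℚ] K => g x) h
  refine ⟨h1, h2, ?_, ?_, ?_⟩
  · intro hG E _ _ Φ hΦ ψ
    obtain ⟨e1, s, e2⟩ := a0_cm ψ hΦ
    refine (h2 _).mpr ⟨a0_cm ψ hΦ, ?_⟩
    exact Pool.Agent.Q11.CZ.twist_of_classCond (c := conjugation K)
      Pool.Agent.Q11.CZ.conj_comm Pool.Agent.Q11.CZ.conj_mul_self hc1 hG e1 e2
  · intro hG E _ _ Φ hΦ
    obtain ⟨e1, s, e2⟩ := height_cm hΦ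
    refine (h2 _).mpr ⟨height_cm hΦ, ?_⟩
    exact Pool.Agent.Q11.CZ.twist_of_classCondInv (c := conjugation K)
      Pool.Agent.Q11.CZ.conj_comm Pool.Agent.Q11.CZ.conj_mul_self hc1 hG e1 (height_inv Φ) e2
  · intro hG E _ _ Φ hΦ
    exact (h1 _).mpr ⟨height_cm hΦ, Pool.Agent.Q11.CZ.zinv_of_exponent hG (height_inv Φ)⟩

end Pool.Agent.Results.MP_a2beea_nt.AveragedAndAbelian
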