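import Pool.Agent.Q11.CZ.Main

/-!
# Colmez's class functions: reduction to CM types of signature `(n - 1, 1)` and `(n - 2, 2)`

`K` is a CM field, Galois over `ℚ`, of degree `2 n`, which contains an imaginary quadratic field `k`.
For a number field `E` the set `H_E` of its embeddings is the set of its embeddings into `K` (if `K`
contains the conjugates of `E`; every CM field `E` is of this kind for a suitable `K`), and
`a⁰_{E,ψ,Φ}` is the class function on `Gal(K/ℚ)` of the question, for a CM type `Φ` of `E` and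
`ψ ∈ H_E`.  The CM types of `K` itself of signature `(n - s, s)` with respect to `k` are those with
exactly `s` elements which are not the identity on `k`.

* All the functions `a⁰_{E,ψ,Φ}` are rational combinations of `1` and of those of the CM types of `K` of
  signature `(n, 0)` or `(n - 1, 1)`.
* All the functions `∑_{ψ ∈ Φ} a⁰_{E,ψ,Φ}`, which belong to the Faltings heights of the abelian
  varieties with complex multiplication, are rational combinations of `1` and of those of the CM types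
  of `K` of signature `(n - s, s)`, `s ≤ 2`.
* The two spans are determined exactly.

By Colmez's theorem `ht(E,ψ,Φ)` is the value at `a⁰_{E,ψ,Φ}` of a `ℚ`-linear function, as is the other
side of the formula.  So Q1 follows in general from its cases of signature `(n, 0)` and `(n - 1, 1)`, and
the formula for the Faltings heights (known for the signature `(n - 1, 1)`) from its cases of signature
`(n - s, s)`, `s ≤ 2`.
-/

set_option autoImplicit false

open NumberField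

namespace Pool.Agent.Results.MP_a2beea_nt.SignatureReduction

variable {E K : Type} [Field E] [NumberField E] [Field K] [NumberField K]

/-- The complex conjugation of the CM field `K`, an element of `Gal(K/ℚ)`. -/
noncomputable def conjugation (K : Type) [Field K] [NumberField K] [IsCMField K] : K ≃ₐ[ℚ] K :=
  (IsCMField.complexConj K).restrictScalars ℚ

/-- The action `g ψ = g ∘ ψ` of `Gal(K/ℚ)` on `H_E`, the set of the embeddings of `E` into `K`. -/
def act (g : K ≃ₐ[ℚ] K) (ψ : E →ₐ[ℚ] K) : E →ₐ[ℚ] K := (g : K →ₐ[ℚ] K).comp ψ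

/-- `Φ` is a CM type of `E`: `H_E` is the disjoint union of `Φ` and `c Φ`. -/
def IsCMType [IsCMField K] (Φ : Finset (E →ₐ[ℚ] K)) : Prop :=
  ∀ ψ : E →ₐ[ℚ] K, act (conjugation K) ψ ∈ Φ ↔ ψ ∉ Φ

/-- Colmez's function `a⁰_{E,ψ,Φ}(g) = #{η : η⁻¹ g η ψ ∈ Φ} / #Gal(K/ℚ)`. -/
noncomputable def a0 (ψ : E →ₐ[ℚ] K) (Φ : Finset (E →ₐ[ℚ] K)) (g : K ≃ₐ[ℚ] K) : ℚ :=
  (Nat.card {η : K ≃ₐ[ℚ] K // act (η⁻¹ * g * η) ψ ∈ Φ} : ℚ) / Nat.card (K ≃ₐ[ℚ] K)

/-- The sum of Colmez's functions over the elements of the CM type. -/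
noncomputable def heightFn (Φ : Finset (E →ₐ[ℚ] K)) (g : K ≃ₐ[ℚ] K) : ℚ := ∑ ψ ∈ Φ, a0 ψ Φ g

open scoped Classical in
/-- The CM types of `K` with at most `r` elements which are not the identity on `k`. -/
def IsNear [IsCMField K] (k : IntermediateField ℚ K) (r : ℕ) (Φ : Finset (K →ₐ[ℚ] K)) : Prop :=
  IsCMType Φ ∧ (Φ.filter fun ψ => ¬ ∀ x ∈ k, ψ x = x).card ≤ r

/-- The span of `1` and the functions `a⁰_{K,ψ,Φ}` of the CM types of signature `(n, 0)`,
`(n - 1, 1)`. -/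
noncomputable def spanOne [IsCMField K] (k : IntermediateField ℚ K) :
    Submodule ℚ ((K ≃ₐ[ℚ] K) → ℚ) :=
  Submodule.span ℚ ({fun _ => 1} ∪ {F | ∃ (Φ : Finset (K →ₐ[ℚ] K)) (ψ : K →ₐ[ℚ] K),
    IsNear k 1 Φ ∧ F = a0 ψ Φ})

/-- The span of `1` and the functions `∑_{ψ ∈ Φ} a⁰_{K,ψ,Φ}` of the CM types of signature `(n, 0)`,
`(n - 1, 1)`, `(n - 2, 2)`. -/
noncomputable def spanTwo [IsCMField K] (k : IntermediateField ℚ K) :
    Submodule ℚ ((K ≃ₐ[ℚ] K) → ℚ) :=
  Submodule.span ℚ ({fun _ => 1} ∪ {F | ∃ Φ : Finset (K →ₐ[ℚ] K),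
    IsNear k 2 Φ ∧ F = heightFn Φ})

/-- `f` is a class function and `f(g) + f(c g)` does not depend on `g`. -/
def IsCMFunction [IsCMField K] (f : (K ≃ₐ[ℚ] K) → ℚ) : Prop :=
  (∀ g h : K ≃ₐ[ℚ] K, f (h⁻¹ * g * h) = f g) ∧ ∃ s : ℚ, ∀ g, f g + f (conjugation K * g) = s

open scoped Classical in
lemma a0_eq (ψ : E →ₐ[ℚ] K) (Φ : Finset (E →ₐ[ℚ] K)) : a0 ψ Φ = Pool.Agent.Q11.CZ.a0 ψ Φ := by
  funext g
  unfold a0 Pool.Agent.Q11.CZ.a0
  rw [Nat.card_eq_fintype_card, Nat.card_eq_fintype_card, Fintype.card_subtype]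
  rfl

lemma heightFn_eq (Φ : Finset (E →ₐ[ℚ] K)) : heightFn Φ = Pool.Agent.Q11.CZ.T Φ := by
  funext g
  unfold heightFn Pool.Agent.Q11.CZ.T
  simp only [a0_eq]

lemma isHalf [IsCMField K] {Φ : Finset (E →ₐ[ℚ] K)} (hΦ : IsCMType Φ) :
    Pool.Agent.Q11.CZ.IsHalf (Pool.Agent.Q11.CZ.conj K) Φ := hΦ

/-- The functions in question form a subspace. -/
noncomputable def cmSpace (K : Type) [Field K] [NumberField K] [IsCMField K] :
    Submodule ℚ ((K ≃ₐ[ℚ] K) → ℚ) where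
  carrier := {f | IsCMFunction f}
  zero_mem' := ⟨fun _ _ => rfl, 0, fun _ => by simp⟩
  add_mem' := by
    rintro f f' ⟨h1, s, hs⟩ ⟨h1', s', hs'⟩
    refine ⟨fun g h => ?_, s + s', fun g => ?_⟩
    · simp only [Pi.add_apply, h1 g h, h1' g h]
    · simp only [Pi.add_apply]; linarith [hs g, hs' g]
  smul_mem' := by
    rintro r f ⟨h1, s, hs⟩
    refine ⟨fun g h => ?_, r * s, fun g => ?_⟩
    · simp only [Pi.smul_apply, h1 g h]
    · simp only [Pi.smul_apply, smul_eq_mul]; rw [← hs g]; ring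

/-- The symmetric functions form a subspace. -/
noncomputable def symSpace (K : Type) [Field K] [NumberField K] [IsCMField K] :
    Submodule ℚ ((K ≃ₐ[ℚ] K) → ℚ) where
  carrier := {f | ∀ g, f g⁻¹ = f g}
  zero_mem' := fun _ => rfl
  add_mem' := by
    intro f f' h h' g
    simp only [Pi.add_apply, h g, h' g]
  smul_mem' := by
    intro r f h g
    simp only [Pi.smul_apply, h g]

lemma a0_cm [IsCMField K] (ψ : E →ₐ[ℚ] K) {Φ : Finset (E →ₐ[ℚ] K)} (hΦ : IsCMType Φ) :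
    IsCMFunction (a0 ψ Φ) := by
  rw [a0_eq]
  exact ⟨Pool.Agent.Q11.CZ.a0_isClass ψ Φ, 1,
    fun g => Pool.Agent.Q11.CZ.a0_add Pool.Agent.Q11.CZ.conj_comm ψ (isHalf hΦ) g⟩

lemma height_cm [IsCMField K] {Φ : Finset (E →ₐ[ℚ] K)} (hΦ : IsCMType Φ) :
    IsCMFunction (heightFn Φ) := by
  rw [heightFn_eq]
  exact ⟨Pool.Agent.Q11.CZ.T_isClass Φ, Φ.card,
    fun g => Pool.Agent.Q11.CZ.T_add Pool.Agent.Q11.CZ.conj_comm (isHalf hΦ) g⟩

lemma height_inv [IsCMField K] (Φ : Finset (E →ₐ[ℚ] K)) (g : K ≃ₐ[ℚ] K) :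
    heightFn Φ g⁻¹ = heightFn Φ g := by
  rw [heightFn_eq]
  exact Pool.Agent.Q11.CZ.T_inv Φ g

lemma mem_spanOne [IsGalois ℚ K] [IsCMField K] (k : IntermediateField ℚ K)
    (hk : Module.finrank ℚ k = 2) [IsTotallyComplex k] (f : (K ≃ₐ[ℚ] K) → ℚ)
    (hf : IsCMFunction f) : f ∈ spanOne k := by
  obtain ⟨h1, s, hs⟩ := hf
  refine Submodule.span_mono ?_ (Pool.Agent.Q11.CZ.span_one k hk f h1 s hs)
  rintro F (hF | ⟨Φ, ψ, hΦ, rfl⟩)
  · exact Or.inl hF
  · exact Or.inr ⟨Φ, ψ, hΦ, (a0_eq ψ Φ).symm⟩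

lemma mem_spanTwo [IsGalois ℚ K] [IsCMField K] (k : IntermediateField ℚ K)
    (hk : Module.finrank ℚ k = 2) [IsTotallyComplex k] (f : (K ≃ₐ[ℚ] K) → ℚ)
    (hf : IsCMFunction f) (hinv : ∀ g, f g⁻¹ = f g) : f ∈ spanTwo k := by
  obtain ⟨h1, s, hs⟩ := hf
  refine Submodule.span_mono ?_ (Pool.Agent.Q11.CZ.span_two k hk f h1 hinv s hs)
  rintro F (hF | ⟨Φ, hΦ, rfl⟩)
  · exact Or.inl hF
  · exact Or.inr ⟨Φ, hΦ, (heightFn_eq Φ).symm⟩

/-- **Main result.**  Let `K` be a CM field, Galois over `ℚ`, and `k ⊆ K` an imaginary quadratic field.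
(1), (2) For all number fields `E`, CM types `Φ` of `E` and `ψ ∈ H_E` the function `a⁰_{E,ψ,Φ}` is a
combination of `1` and of those of the CM types of `K` of signature `(n, 0)`, `(n - 1, 1)`; the sum
over `ψ ∈ Φ` is a combination of `1` and of the sums for the CM types of `K` of signature `(n, 0)`,
`(n - 1, 1)`, `(n - 2, 2)`.
(3), (4) The first space consists of all class functions `f` such that `f(g) + f(c g)` is constant, and
the second one of those which also satisfy `f(g⁻¹) = f(g)`. -/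
theorem result (K : Type) [Field K] [NumberField K] [IsGalois ℚ K] [IsCMField K]
    (k : IntermediateField ℚ K) (hk : Module.finrank ℚ k = 2) [IsTotallyComplex k] :
    (∀ (E : Type) [Field E] [NumberField E] (Φ : Finset (E →ₐ[ℚ] K)), IsCMType Φ →
      ∀ ψ : E →ₐ[ℚ] K, a0 ψ Φ ∈ spanOne k) ∧
    (∀ (E : Type) [Field E] [NumberField E] (Φ : Finset (E →ₐ[ℚ] K)), IsCMType Φ →
      heightFn Φ ∈ spanTwo k) ∧
    (∀ f : (K ≃ₐ[ℚ] K) → ℚ, f ∈ spanOne k ↔ IsCMFunction f) ∧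
    (∀ f : (K ≃ₐ[ℚ] K) → ℚ, f ∈ spanTwo k ↔ IsCMFunction f ∧ ∀ g, f g⁻¹ = f g) := by
  refine ⟨fun E _ _ Φ hΦ ψ => mem_spanOne k hk _ (a0_cm ψ hΦ),
    fun E _ _ Φ hΦ => mem_spanTwo k hk _ (height_cm hΦ) (height_inv Φ),
    fun f => ⟨fun hf => ?_, mem_spanOne k hk f⟩,
    fun f => ⟨fun hf => ?_, fun h => mem_spanTwo k hk f h.1 h.2⟩⟩
  · have h1 : spanOne k ≤ cmSpace K := by
      refine Submodule.span_le.mpr ?_
      rintro F (hF | ⟨Φ, ψ, hΦ, rfl⟩)
      · rw [Set.mem_singleton_iff.mp hF]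
        exact ⟨fun _ _ => rfl, 2, fun _ => by norm_num⟩
      · exact a0_cm ψ hΦ.1
    exact h1 hf
  · have h1 : spanTwo k ≤ cmSpace K ⊓ symSpace K := by
      refine Submodule.span_le.mpr ?_
      rintro F (hF | ⟨Φ, hΦ, rfl⟩)
      · rw [Set.mem_singleton_iff.mp hF]
        exact ⟨⟨fun _ _ => rfl, 2, fun _ => by norm_num⟩, fun _ => rfl⟩
      · exact ⟨height_cm hΦ.1, height_inv Φ⟩
    exact h1 hf

end Pool.Agent.Results.MP_a2beea_nt.SignatureReduction
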